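import Pool.Agent.NNe.Chk
import Pool.Agent.NNe.Slots

set_option linter.all false
set_option maxRecDepth 1000000
namespace Pool.Agent.NNr.R11_6_14_17

open Pool.Agent.NNe

noncomputable def SI0_0 : Nat := (nat_lit 0xc0300c0300c0300c020080200802004010040100000)
noncomputable def SW0_0 : Nat := (nat_lit 0x220100050014008003000803c012008001000001c00d006001c016006)
noncomputable def RV0_0 : Nat := (nat_lit 0x20400818200a0880a408800f18200f10000308801208803c20401618201e08803908802f08805918202c10000c0880a008806c088076)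
noncomputable def CO0_0 : Nat := (nat_lit 0x2a80202a80102a7440288840288810288800280c40269c40265420265410249c40241c400aa0400aa0100aa0000a744002b04002744)
noncomputable def Y0_0_1_0 : Nat := (nat_lit 0x180000000040000000060000000030000000018000000000000000006000000003)
noncomputable def Y0_0_2_3 : Nat := (nat_lit 0xfe00000003d00000000d800000000000000007e00000003d00000003800000000c00000000e0000000030)
noncomputable def C0_0 : Cd := (Cd.mk (nat_lit 18) (nat_lit 5) (nat_lit 1025) SI0_0 SW0_0 RV0_0 CO0_0 (Sl.cons (Sd.mk (nat_lit 0) (nat_lit 0) (nat_lit 0) (nat_lit 2) (Sb.cons (nat_lit 8) (nat_lit 0) (nat_lit 2) Sb.nil) (Bl.c Y0_0_1_0 (nat_lit 8) (nat_lit 1) Bl.nil)) (Sl.cons (Sd.mk (nat_lit 2) (nat_lit 0) (nat_lit 2) (nat_lit 4) (Sb.cons (nat_lit 8) (nat_lit 0) (nat_lit 4) Sb.nil) (Bl.r Y0_0_1_0 (nat_lit 0) Bl.nil)) (Sl.cons (Sd.mk (nat_lit 9) (nat_lit 8) (nat_lit 6) (nat_lit 5) (Sb.cons (nat_lit 0) (nat_lit 0) (nat_lit 2) (Sb.cons (nat_lit 8) (nat_lit 2) (nat_lit 3) Sb.nil)) (Bl.r Y0_0_2_3 (nat_lit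 3) Bl.nil)) (Sl.cons (Sd.mk (nat_lit 10) (nat_lit 8) (nat_lit 11) (nat_lit 7) (Sb.cons (nat_lit 0) (nat_lit 0) (nat_lit 4) (Sb.cons (nat_lit 8) (nat_lit 4) (nat_lit 3) Sb.nil)) (Bl.c Y0_0_2_3 (nat_lit 10) (nat_lit 2) Bl.nil)) Sl.nil)))))
noncomputable def SI0_1 : Nat := (nat_lit 0x1405014050140501405014040100401004010040100300c0300c0300c0300c0200802008020080200802004010040100401004010040000000000000000000000)
noncomputable def SW0_1 : Nat := (nat_lit 0x1980c805402200d004402000f00400c4052028010808003200e00380c004e02600f807803000d00300bc04a01d00b8058018005002000c05c02d0160090038015005802800402b011806c0280130090024002000)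
noncomputable def RV0_1 : Nat := (nat_lit 0x20400918200b0880a50880ac08801508801018201010000408801308803d20401718201f08802c18202008803208803a08803008805308804418202618202810000808804908805008804608807008807a08808220400018200008808908800020400318200308805a18202d10000d0880a10880a808806018203210001008805e08806d08807708807e88801ea0400c982012088086a04010982016)
noncomputable def CO0_1 : Nat := (nat_lit 0x2a80202a80102a7440297840290c40288840288810288800280c40269c40265420265410255840255810251c40249c40241c4016ac40166440166410156810156800152c4014ac40142c4012b04012744011784011002011001010b8401004401004201004100aa0400aa0100aa0000a7440097840092c4008a81008a800082c4002b04002744001784001104001102001101000b84000142000141)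
noncomputable def Y0_1_1_0 : Nat := (nat_lit 0x3fe0000000120000000f200000000000000003da0000000480000000ff80000000000000003fe0000000000000000ff80000000000000003c00000000000000000f400000001200000003f0000000000)
noncomputable def Y0_1_2_3 : Nat := (nat_lit 0x1fe00000000800000007f80000000200000001c60000000c3000000061800000010000000018600000000000000007f80000000200000001fe000000008000000063800000010000000019e000000008)
noncomputable def Y0_1_4_5 : Nat := (nat_lit 0x1f800000000000000007200000001900000001d80000000000000003fe00000010200000003d80000000000000003fe0000001000000000ff80000004000000003fe000000100)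
noncomputable def C0_1 : Cd := (Cd.mk (nat_lit 52) (nat_lit 6) (nat_lit 546) SI0_1 SW0_1 RV0_1 CO0_1 (Sl.cons (Sd.mk (nat_lit 0) (nat_lit 0) (nat_lit 0) (nat_lit 9) (Sb.cons (nat_lit 0) (nat_lit 0) (nat_lit 3) (Sb.cons (nat_lit 4) (nat_lit 3) (nat_lit 4) (Sb.cons (nat_lit 8) (nat_lit 7) (nat_lit 2) Sb.nil))) (Bl.c Y0_1_1_0 (nat_lit 18) (nat_lit 1) Bl.nil)) (Sl.cons (Sd.mk (nat_lit 2) (nat_lit 0) (nat_lit 9) (nat_lit 9) (Sb.cons (nat_lit 0) (nat_lit 0) (nat_lit 3) (Sb.cons (nat_lit 4) (nat_lit 3) (nat_lit 2) (Sb.cons (nat_lit 8) (nat_lit 5) (nat_lit 4) Sb.nil))) (Bl.r Y0_1_1_0 (nat_lit 0) Bl.nil)) (Sl.cons (Sd.mk (nat_lit 4) (nat_lit 4) (nat_lit 18) (nat_lit 9) (Sb.cons (nat_lit 0) (nat_lit 0) (nat_lit 4) (Sb.cons (nat_lit 4) (nat_lit 4) (nat_lit 3) (Sb.cons (nat_lit 8) (nat_lit 7) (nat_lit 2) Sb.nil))) (Bl.r Y0_1_2_3 (nat_lit 3) Bl.nil)) (Sl.cons (Sd.mk (nat_lit 5) (nat_lit 4) (nat_lit 27) (nat_lit 8) (Sb.cons (nat_lit 0) (nat_lit 0) (nat_lit 2) (Sb.cons (nat_lit 4) (nat_lit 2) (nat_lit 3)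 (Sb.cons (nat_lit 8) (nat_lit 5) (nat_lit 3) Sb.nil))) (Bl.c Y0_1_2_3 (nat_lit 18) (nat_lit 2) Bl.nil)) (Sl.cons (Sd.mk (nat_lit 9) (nat_lit 8) (nat_lit 35) (nat_lit 8) (Sb.cons (nat_lit 0) (nat_lit 0) (nat_lit 2) (Sb.cons (nat_lit 4) (nat_lit 2) (nat_lit 3) (Sb.cons (nat_lit 8) (nat_lit 5) (nat_lit 3) Sb.nil))) (Bl.r Y0_1_4_5 (nat_lit 5) Bl.nil)) (Sl.cons (Sd.mk (nat_lit 10) (nat_lit 8) (nat_lit 43) (nat_lit 9) (Sb.cons (nat_lit 0) (nat_lit 0) (nat_lit 4) (Sb.cons (nat_lit 4) (nat_lit 4) (nat_lit 2) (Sb.cons (nat_lit 8) (nat_lit 6) (nat_lit 3) Sb.nil))) (Bl.c Y0_1_4_5 (nat_lit 16) (nat_lit 4) Bl.nil)) Sl.nil)))))))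
noncomputable def SI0_2 : Nat := (nat_lit 0xc0300c0300c02008020080200802004010040100400000000000000000)
noncomputable def SW0_2 : Nat := (nat_lit 0xb805802400b0030054022010005001400800300a003c012008001004c01c00d006001c002000)
noncomputable def RV0_2 : Nat := (nat_lit 0x18202910000908804a08805108804708808320400118200108808a0880012040041820040880a908806118203310001108805f08807f88801fa0400d982013088087a04011982017)
noncomputable def CO0_2 : Nat := (nat_lit 0x156810156800152c4014ac40142c4011784011002011001010b840100440100420100410097840092c4008a81008a800082c4001784001104001102001101000b84000142000141)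
noncomputable def Y0_2_1_0 : Nat := (nat_lit 0xda00000002000000003680000001340000000c800000002000000003200000000000000000da00000004d)
noncomputable def Y0_2_2_3 : Nat := (nat_lit 0x3e000000007000000000000000000000000000e00000000700000000f800000001c00000003e000000017000000000000000000000000000e000000007)
noncomputable def C0_2 : Cd := (Cd.mk (nat_lit 24) (nat_lit 7) (nat_lit 67) SI0_2 SW0_2 RV0_2 CO0_2 (Sl.cons (Sd.mk (nat_lit 0) (nat_lit 0) (nat_lit 0) (nat_lit 7) (Sb.cons (nat_lit 0) (nat_lit 0) (nat_lit 3) (Sb.cons (nat_lit 4) (nat_lit 3) (nat_lit 4) Sb.nil)) (Bl.c Y0_2_1_0 (nat_lit 10) (nat_lit 1) Bl.nil)) (Sl.cons (Sd.mk (nat_lit 2) (nat_lit 0) (nat_lit 7) (nat_lit 5) (Sb.cons (nat_lit 0) (nat_lit 0) (nat_lit 3) (Sb.cons (nat_lit 4) (nat_lit 3) (nat_lit 2) Sb.nil)) (Bl.r Y0_2_1_0 (nat_lit 0) Bl.nil)) (Sl.cons (Sd.mk (nat_lit 4) (nat_lit 4) (nat_lit 12) (nat_lit 7) (Sb.cons (nat_lit 0) (nat_lit 0) (nat_lit 4) (Sb.cons (nat_lit 4) (nat_lit 4) (nat_lit 3) Sb.nil)) (Bl.r Y0_2_2_3 (nat_lit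 3) Bl.nil)) (Sl.cons (Sd.mk (nat_lit 5) (nat_lit 4) (nat_lit 19) (nat_lit 5) (Sb.cons (nat_lit 0) (nat_lit 0) (nat_lit 2) (Sb.cons (nat_lit 4) (nat_lit 2) (nat_lit 3) Sb.nil)) (Bl.c Y0_2_2_3 (nat_lit 14) (nat_lit 2) Bl.nil)) Sl.nil)))))
noncomputable def C0_3 : Cd := (Cd.mk (nat_lit 0) (nat_lit 11) (nat_lit 26) (nat_lit 0) (nat_lit 0) (nat_lit 0) (nat_lit 0) Sl.nil)
noncomputable def SI0_4 : Nat := (nat_lit 0x2008020080200802008020080200802008020080200802008020080200801c0701c0701c0701c0701c0701c0701806018060180601806018060180601806018060180601806018060180601806018060180601806018060180601405014050140501405014050140501405014050140501004010040100401004010040100401004010040100401004010040100300c0300c0300c0300c0300c0300c0300c0300c0300c0300c0300c03008020080200802008020080200802004010040100401004010040100401004010040100401000000000000000000000000000000)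
noncomputable def SW0_4 : Nat := (nat_lit 0xd206802a815c0a805302b01480a205001f010007a03c01f80ec07403901480a003a01c00580280ce0660278138070037013809803601a00480200c606503101840c006402f817809604d0250124098048023811806803601980c806a03101800bc04a02400b806402c01500c005002601200380181620b004c8260118088046822c114089043821805c023008804001e00505702ac15e0ad05602a81520a804b8258108081042820c10408003f81f805a02c01100380080a6051829c14a0a4051028414009504a01f00f207d03d81e80f007703b017408a044006800c13e09e04982480ea07402e010c018002000800013a09c04882400e406f03981c40e006e03681b00b605a02c810805602104d826811e08e03581a80b0041015008003e01e)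
noncomputable def RV0_4 : Nat := (nat_lit 0x8806908801d0880a708806708805d18203008801b08800d20400b18200d0880af08806618203110000f08801a08800e18200e10000208806508801908806808801c08806408801808805708804008804f08803808804e08803708804d08803608805608803f08804c088035088073888029888021a0400f98201508800b20400218200208807d888027a0401298201808800908800320400618200608808588802688802298201908800808800418200710000088802508800708808d88802888802398201a08800a0880051820081000018880240880060880b108809d0880ae0880a608809f08809b08801708800c20400a18200c2040071820090880ad08801608801118201110000508801408809908809108803e08802e18202208802b20401418201c08809708809508809308808f08803420401518201d08802a20401318201b08802d18202108803308803b08803108809808809008805518202a10000a08804218202410000708809608809408809208808e08804b08804318202508804118202310000608805408804518202708805208804808808c08807208808408807c08807508806b08807108807b08808b0880022040051820050880b008809c0880ab0880a308809e08809a08806308805c18202f08805818202b10000b08805b18202e10000e0880a20880aa08806208808808806f08808108807908807408806a08806e088078088080888020a0400e982014)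
noncomputable def CO0_4 : Nat := (nat_lit 0x3aac403a8c403a74403a6c403a64403a64103a4c403a44403a44203a4410397840396c40396810396800394c40394840394810394800392c40390c4038ac40388c40382c40380c4036ac40369c40366c40365c40356c40355c40352c40351c4034ac40349c40342c40341c4032b040329c40329040329020329010328c40328020328010327440325c40325420325410324c40324440324420324410317840315c40315840315810314c40314840314810314800311c40310c4030b840309c40309840309810308c40308840308810308800301c40300c402bb8402bb0402b78402b74402b34402b30402b0c402b04402b04202b04102b00202b0010297840290c40288840288810288800280c4027b84027b040279c40279840279810279040279020279010277840277440273440273040271c40271420271410271040271020271010255840255810251c40249c40241c4017b84017b04017ac4017a81017a80017a04017a01017a000177840177440173440173040172c4017244017241017204017201017200016ac4016644016641014ac40142c4013b84013b04013784013744013344013304012b04012744010b8401004401004201004100bb8400bb0400b78400b74400b34400b30400b2c400b24400b24100b20400b20100b20000aa0400aa0100aa0000a7440097840092c4003b84003b04003784003744003344003304002b04002744001784001104001102001101)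
noncomputable def Y0_4_1_0 : Nat := (nat_lit 0x1f800000002400000007e00000000b00000001f800000002400000007e00000000200000001f800000000800000007e00000000b00000001f800000000000000007e00000001000000001f800000000800000007e00000001000000001f800000000800000007e0000000080000007e78000001700000001f9e0000000020000007e78000003f20000001f9e0000000000000007f80000000000000001fe0000000000)
noncomputable def Y0_4_2_3 : Nat := (nat_lit 0xf800000007c00000003e00000001f00000000f800000007c00000003e00000000c00000000f800000003000000003e00000001f0003ffff18000000000000ffffc60000682a00003ffffe0000000000000fffff80000000000003ffffe00000c0f30000fffff8000000000)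
noncomputable def Y0_4_4_5 : Nat := (nat_lit 0x7e00000000000000001f800000000000000007e00000000000000001f800000000800000007e00000000200000001f800000000800000007e00000003d00000001f800000000800000007e00000000000000001f800000000000000007e00000000000000001f800000000000000007e00000000000000001f80000000f400000007e00000000000000001f800000000800000007e00000003d00000001f800000000800007ff9e00003f28200001ffe78000000a0800007ff9e00001728000001fff8000005ca0000007ffe0000017280)
noncomputable def Y0_4_6_6 : Nat := (nat_lit 0x204810000000000000000000000000000000000000000000000000000000000000000000000000000000000000001e17840000900400000204810000102408000081204000000000000078481000008000000000000000000000000000000000000000000000000000000000000000405e100002001000001612040000b00000000584810000082408000161204000020000207800081101000040800000000000000000000000000000000000000000000000000000007c40001e1060000010081600020400200000020580008100000000008160002044090001020000000000000000001f1e000784182000040202020400000000000000000000000000000000000000000000000000000000000000000007c7878400060824000080808100000000000020202040000000000008080810004040408000000000000000000001f1e1e1000182090000)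
noncomputable def Y0_4_7_7 : Nat := (nat_lit 0x15400000000000000000000000000000000001540000000000000000000000000000000001414000000000000000000000000000000000141400000000000000000000000000000000015400000000000000000000000000000000001540000000000)
noncomputable def Y0_4_8_8 : Nat := (nat_lit 0x11ea800000010000000000000000000000000010a80000000000000047aa00000004000000010a800000085400000042a000000000000000000000000000000000000000000000000000000000000000000000000000000000000002100028000000000000c7800a000008000000210002800000000000084000a0004200050000000000000000000000000000000000000000000000000000000000000000000000000000031e002800002000000000000000000000000031f1e8000002010000000000000000000000031f1e80000020100000000000000000000)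
noncomputable def C0_4 : Cd := (Cd.mk (nat_lit 178) (nat_lit 4) (nat_lit 4369) SI0_4 SW0_4 RV0_4 CO0_4 (Sl.cons (Sd.mk (nat_lit 0) (nat_lit 0) (nat_lit 0) (nat_lit 12) (Sb.cons (nat_lit 4) (nat_lit 0) (nat_lit 4) (Sb.cons (nat_lit 8) (nat_lit 4) (nat_lit 2) (Sb.cons (nat_lit 12) (nat_lit 6) (nat_lit 6) Sb.nil))) (Bl.c Y0_4_1_0 (nat_lit 36) (nat_lit 1) Bl.nil)) (Sl.cons (Sd.mk (nat_lit 2) (nat_lit 0) (nat_lit 12) (nat_lit 18) (Sb.cons (nat_lit 4) (nat_lit 0) (nat_lit 2) (Sb.cons (nat_lit 8) (nat_lit 2) (nat_lit 4) (Sb.cons (nat_lit 12) (nat_lit 6) (nat_lit 12) Sb.nil))) (Bl.r Y0_4_1_0 (nat_lit 0) Bl.nil)) (Sl.cons (Sd.mk (nat_lit 4) (nat_lit 4) (nat_lit 30) (nat_lit 12) (Sb.cons (nat_lit 0) (nat_lit 0) (nat_lit 4) (Sb.cons (nat_lit 8) (nat_lit 4) (nat_lit 2) (Sb.cons (nat_lit 12) (nat_lit 6) (nat_lit 6) Sb.nil))) (Bl.r Y0_4_2_3 (nat_lit 3) Bl.nil)) (Sl.cons (Sd.mk (nat_lit 5) (nat_lit 4) (nat_lit 42) (nat_lit 23) (Sb.cons (nat_lit 0) (nat_lit 0) (nat_lit 2) (Sb.cons (nat_lit 8) (nat_lit 2)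 (nat_lit 3) (Sb.cons (nat_lit 12) (nat_lit 5) (nat_lit 18) Sb.nil))) (Bl.c Y0_4_2_3 (nat_lit 24) (nat_lit 2) Bl.nil)) (Sl.cons (Sd.mk (nat_lit 9) (nat_lit 8) (nat_lit 65) (nat_lit 23) (Sb.cons (nat_lit 0) (nat_lit 0) (nat_lit 2) (Sb.cons (nat_lit 4) (nat_lit 2) (nat_lit 3) (Sb.cons (nat_lit 12) (nat_lit 5) (nat_lit 18) Sb.nil))) (Bl.r Y0_4_4_5 (nat_lit 5) Bl.nil)) (Sl.cons (Sd.mk (nat_lit 10) (nat_lit 8) (nat_lit 88) (nat_lit 18) (Sb.cons (nat_lit 0) (nat_lit 0) (nat_lit 4) (Sb.cons (nat_lit 4) (nat_lit 4) (nat_lit 2) (Sb.cons (nat_lit 12) (nat_lit 6) (nat_lit 12) Sb.nil))) (Bl.c Y0_4_4_5 (nat_lit 46) (nat_lit 4) Bl.nil)) (Sl.cons (Sd.mk (nat_lit 12) (nat_lit 12) (nat_lit 106) (nat_lit 36) (Sb.cons (nat_lit 0) (nat_lit 0) (nat_lit 10) (Sb.cons (nat_lit 4) (nat_lit 10) (nat_lit 10) (Sb.cons (nat_lit 8) (nat_lit 20) (nat_lit 16) Sb.nil))) (Bl.r Y0_4_6_6 (nat_lit 6) (Bl.c Y0_4_6_6 (nat_lit 72) (nat_lit 6) Bl.nil))) (Sl.cons (Sd.mk (nat_lit 13) (nat_lit 12) (nat_lit 142) (nat_lit 12) (Sb.cons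 (nat_lit 0) (nat_lit 0) (nat_lit 4) (Sb.cons (nat_lit 4) (nat_lit 4) (nat_lit 4) (Sb.cons (nat_lit 8) (nat_lit 8) (nat_lit 4) Sb.nil))) (Bl.r Y0_4_7_7 (nat_lit 7) (Bl.c Y0_4_7_7 (nat_lit 24) (nat_lit 7) Bl.nil))) (Sl.cons (Sd.mk (nat_lit 14) (nat_lit 12) (nat_lit 154) (nat_lit 24) (Sb.cons (nat_lit 0) (nat_lit 0) (nat_lit 4) (Sb.cons (nat_lit 4) (nat_lit 4) (nat_lit 10) (Sb.cons (nat_lit 8) (nat_lit 14) (nat_lit 10) Sb.nil))) (Bl.r Y0_4_8_8 (nat_lit 8) (Bl.c Y0_4_8_8 (nat_lit 48) (nat_lit 8) Bl.nil))) Sl.nil))))))))))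
noncomputable def CL0 : Cl := (Cl.cons C0_0 (Cl.cons C0_1 (Cl.cons C0_2 (Cl.cons C0_3 (Cl.cons C0_4 Cl.nil)))))
noncomputable def ZL0_0 : Zl := (Zl.cons (nat_lit 0) (nat_lit 0) (nat_lit 0) (Zl.cons (nat_lit 18) (nat_lit 0) (nat_lit 9) (Zl.cons (nat_lit 12) (nat_lit 9) (nat_lit 7) (Zl.cons (nat_lit 0) (nat_lit 0) (nat_lit 0) (Zl.cons (nat_lit 30) (nat_lit 16) (nat_lit 12) Zl.nil)))))
noncomputable def ZZ0 : ZZ := (ZZ.cons ZL0_0 ZZ.nil)
noncomputable def SI1_0 : Nat := (nat_lit 0xc0300c0300c0200802008010040100000)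
noncomputable def SW1_0 : Nat := (nat_lit 0x1a008002000c00200c003800800000b0050018012005)
noncomputable def RV1_0 : Nat := (nat_lit 0x18200408804f08800718200508800a08801f18200d08801e08801a08802a18201208804e08803608803c)
noncomputable def CO1_0 : Nat := (nat_lit 0x2a80102a7440288840288810280c40269c40265410249c40241c400aa0400aa0100a744002b04002744)
noncomputable def Y1_0_1_0 : Nat := (nat_lit 0x2000010000180000c0000600003)
noncomputable def Y1_0_2_3 : Nat := (nat_lit 0xf80007c0003e0001f0000c0000600003000018)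
noncomputable def C1_0 : Cd := (Cd.mk (nat_lit 14) (nat_lit 5) (nat_lit 1025) SI1_0 SW1_0 RV1_0 CO1_0 (Sl.cons (Sd.mk (nat_lit 0) (nat_lit 0) (nat_lit 0) (nat_lit 2) (Sb.cons (nat_lit 8) (nat_lit 0) (nat_lit 2) Sb.nil) (Bl.c Y1_0_1_0 (nat_lit 6) (nat_lit 1) Bl.nil)) (Sl.cons (Sd.mk (nat_lit 2) (nat_lit 0) (nat_lit 2) (nat_lit 3) (Sb.cons (nat_lit 8) (nat_lit 0) (nat_lit 3) Sb.nil) (Bl.r Y1_0_1_0 (nat_lit 0) Bl.nil)) (Sl.cons (Sd.mk (nat_lit 9) (nat_lit 8) (nat_lit 5) (nat_lit 4) (Sb.cons (nat_lit 0) (nat_lit 0) (nat_lit 2) (Sb.cons (nat_lit 8) (nat_lit 2) (nat_lit 2) Sb.nil)) (Bl.r Y1_0_2_3 (nat_lit 3) Bl.nil)) (Sl.cons (Sd.mk (nat_lit 10) (nat_lit 8) (nat_lit 9) (nat_lit 5) (Sb.cons (nat_lit 0) (nat_lit 0) (nat_lit 3) (Sb.cons (nat_lit 8) (nat_lit 3) (nat_lit 2) Sb.nil)) (Bl.c Y1_0_2_3 (nat_lit 8) (nat_lit 2) Bl.nil)) Sl.nil)))))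
noncomputable def SI1_1 : Nat := (nat_lit 0x140501405010040100300c03008020080200801004010000000000)
noncomputable def SW1_1 : Nat := (nat_lit 0x2a00b003001402200e005004001a00300a003c012002000804c024004006002000e000)
noncomputable def RV1_1 : Nat := (nat_lit 0x20400608800b08800810000320401108801708801c08802210000708802408803808803e20400020400218200108802b10000a10000d088040a04009982007a0400c)
noncomputable def CO1_1 : Nat := (nat_lit 0x2a8020290c40288840288800265420255840251c40166440156800142c4012b0401274401100201004201004100aa0400aa00008a80001784001102001101000142)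
noncomputable def Y1_1_1_0 : Nat := (nat_lit 0xa00000000050000000001400000)
noncomputable def Y1_1_2_3 : Nat := (nat_lit 0x400000000010000000000800000000020000000000400000)
noncomputable def Y1_1_4_5 : Nat := (nat_lit 0xc00000000048000000001000000)
noncomputable def C1_1 : Cd := (Cd.mk (nat_lit 22) (nat_lit 6) (nat_lit 546) SI1_1 SW1_1 RV1_1 CO1_1 (Sl.cons (Sd.mk (nat_lit 0) (nat_lit 0) (nat_lit 0) (nat_lit 4) (Sb.cons (nat_lit 0) (nat_lit 0) (nat_lit 1) (Sb.cons (nat_lit 4) (nat_lit 1) (nat_lit 3) Sb.nil)) (Bl.c Y1_1_1_0 (nat_lit 6) (nat_lit 1) Bl.nil)) (Sl.cons (Sd.mk (nat_lit 2) (nat_lit 0) (nat_lit 4) (nat_lit 3) (Sb.cons (nat_lit 0) (nat_lit 0) (nat_lit 1) (Sb.cons (nat_lit 8) (nat_lit 1) (nat_lit 2) Sb.nil)) (Bl.r Y1_1_1_0 (nat_lit 0) Bl.nil)) (Sl.cons (Sd.mk (nat_lit 4) (nat_lit 4) (nat_lit 7) (nat_lit 5) (Sb.cons (nat_lit 0) (nat_lit 0) (nat_lit 2) (Sb.cons (nat_lit 4) (nat_lit 2) (nat_lit 1) (Sb.cons (nat_lit 8) (nat_lit 3) (nat_lit 2) Sb.nil))) (Bl.r Y1_1_2_3 (nat_lit 3) Bl.nil))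 (Sl.cons (Sd.mk (nat_lit 5) (nat_lit 4) (nat_lit 12) (nat_lit 3) (Sb.cons (nat_lit 0) (nat_lit 0) (nat_lit 1) (Sb.cons (nat_lit 4) (nat_lit 1) (nat_lit 1) (Sb.cons (nat_lit 8) (nat_lit 2) (nat_lit 1) Sb.nil))) (Bl.c Y1_1_2_3 (nat_lit 10) (nat_lit 2) Bl.nil)) (Sl.cons (Sd.mk (nat_lit 9) (nat_lit 8) (nat_lit 15) (nat_lit 3) (Sb.cons (nat_lit 4) (nat_lit 0) (nat_lit 2) (Sb.cons (nat_lit 8) (nat_lit 2) (nat_lit 1) Sb.nil)) (Bl.r Y1_1_4_5 (nat_lit 5) Bl.nil)) (Sl.cons (Sd.mk (nat_lit 10) (nat_lit 8) (nat_lit 18) (nat_lit 4) (Sb.cons (nat_lit 0) (nat_lit 0) (nat_lit 2) (Sb.cons (nat_lit 4) (nat_lit 2) (nat_lit 1) (Sb.cons (nat_lit 8) (nat_lit 3) (nat_lit 1) Sb.nil))) (Bl.c Y1_1_4_5 (nat_lit 6) (nat_lit 4) Bl.nil)) Sl.nil)))))))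
noncomputable def SI1_2 : Nat := (nat_lit 0xc0300c0300802008020080100401004000000000000)
noncomputable def SW1_2 : Nat := (nat_lit 0x2200d004001002000c003800c00400f005801800200e005002400a000)
noncomputable def RV1_2 : Nat := (nat_lit 0x18201108802708802808802508804318200008804608800018200208805008802f18201508802e088041888010982008088044982009)
noncomputable def CO1_2 : Nat := (nat_lit 0x156810152c4014ac40142c4011784011001010b840100440100410097840092c4008a810082c4001784001104001101000b84000141)
noncomputable def Y1_2_1_0 : Nat := (nat_lit 0x40000200002e00016000040000200002e00012)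
noncomputable def Y1_2_2_3 : Nat := (nat_lit 0xe00007000038000000000e000070000780003c0000e00002)
noncomputable def C1_2 : Cd := (Cd.mk (nat_lit 18) (nat_lit 7) (nat_lit 67) SI1_2 SW1_2 RV1_2 CO1_2 (Sl.cons (Sd.mk (nat_lit 0) (nat_lit 0) (nat_lit 0) (nat_lit 5) (Sb.cons (nat_lit 0) (nat_lit 0) (nat_lit 2) (Sb.cons (nat_lit 4) (nat_lit 2) (nat_lit 3) Sb.nil)) (Bl.c Y1_2_1_0 (nat_lit 8) (nat_lit 1) Bl.nil)) (Sl.cons (Sd.mk (nat_lit 2) (nat_lit 0) (nat_lit 5) (nat_lit 4) (Sb.cons (nat_lit 0) (nat_lit 0) (nat_lit 2) (Sb.cons (nat_lit 4) (nat_lit 2) (nat_lit 2) Sb.nil)) (Bl.r Y1_2_1_0 (nat_lit 0) Bl.nil)) (Sl.cons (Sd.mk (nat_lit 4) (nat_lit 4) (nat_lit 9) (nat_lit 5) (Sb.cons (nat_lit 0) (nat_lit 0) (nat_lit 3) (Sb.cons (nat_lit 4) (nat_lit 3) (nat_lit 2) Sb.nil)) (Bl.r Y1_2_2_3 (nat_lit 3) Bl.nil)) (Sl.cons (Sd.mk (nat_lit 5) (nat_lit 4) (nat_lit 14) (nat_lit 4) (Sb.cons (nat_lit 0) (nat_lit 0) (nat_lit 2) (Sb.cons (nat_lit 4) (nat_lit 2) (nat_lit 2) Sb.nil)) (Bl.c Y1_2_2_3 (nat_lit 10) (nat_lit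 2) Bl.nil)) Sl.nil)))))
noncomputable def C1_3 : Cd := (Cd.mk (nat_lit 0) (nat_lit 11) (nat_lit 26) (nat_lit 0) (nat_lit 0) (nat_lit 0) (nat_lit 0) Sl.nil)
noncomputable def SI1_4 : Nat := (nat_lit 0x1c0701c0701c0701c0701c0701c07018060180601806018060180601806018060180601806018060140501405014050140501405010040100401004010040100400c0300c0300c0300c0300c030080200802008020040100401004010040100400000000000000000)
noncomputable def SW1_4 : Nat := (nat_lit 0x1980c805202800f807802a014007803800c00501880bc06002e013809804a02400e807003601a009804801a00b0060028008003029814808e0450230110032009004001c0a2050021810808204000c005c022002027813807e03e01e80f005a023011000409a04c01d80e8042000025812807203701c00d805802b015012409003501a008002c010)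
noncomputable def RV1_4 : Nat := (nat_lit 0x8803308800f08802d20400810000c10000208803108800d08803208800e08803008800c888015a0400b088006204001a0400d08800120400418200388801198200a08800210000088801308800488801498200b08800510000188801208800308805308804b08804d08804920400720400508805108800918200610000408801920400f20401008801620400e18200c08801818200e08801d08801b10000810000608802118200f08802010000508802908802318201008802608804708803908803b08803508803f20400308805208804a08804c08804818201410000908802c18201310000b08804508803708803a08803408803d088042a0400a)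
noncomputable def CO1_4 : Nat := (nat_lit 0x3aac403a8c403a64403a4420396800394800392c40390c4038ac40388c40382c40380c40329c40329020328c40328020325420324440324420324410315840315810314840314800311c40310c40309c40309810308c40308800301c40300c402bb8402bb0402b34402b30402b04202b0020297840288840288810288800279840279020271420271040271020271010255840255810251c40241c4017a80017a00017244017241017204017200016ac40166440166410142c4013b84013b0401334401330401274401004200bb8400bb0400b34400b30400b24100b20000aa0400aa0100aa00003b84003b04003344003304002744001784001102)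
noncomputable def Y1_4_1_0 : Nat := (nat_lit 0x40000000001800000000020000100001800004000020000100001000000000700000000000800004000f400002)
noncomputable def Y1_4_2_3 : Nat := (nat_lit 0x78000000001e00001000030000000001e00000001d8000000001cc000a6)
noncomputable def Y1_4_4_5 : Nat := (nat_lit 0x8000040001c00000000070000080000200000000070000080000200000001f88001c00006200030000f8000000003e000000)
noncomputable def Y1_4_6_6 : Nat := (nat_lit 0x2080000400014400020000000000000180000000004510020000100000000000000000000000000000040000200010004400000000000000009002000000000000000000000000000242001000010010000000000000000009080000000)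
noncomputable def Y1_4_7_7 : Nat := (nat_lit 0x2000000000000000000000a8000400000000000002028000000000000000000800000000000000000000a00000000000000000000a00000000000000000)
noncomputable def C1_4 : Cd := (Cd.mk (nat_lit 84) (nat_lit 4) (nat_lit 4369) SI1_4 SW1_4 RV1_4 CO1_4 (Sl.cons (Sd.mk (nat_lit 0) (nat_lit 0) (nat_lit 0) (nat_lit 7) (Sb.cons (nat_lit 4) (nat_lit 0) (nat_lit 2) (Sb.cons (nat_lit 8) (nat_lit 2) (nat_lit 1) (Sb.cons (nat_lit 12) (nat_lit 3) (nat_lit 4) Sb.nil))) (Bl.c Y1_4_1_0 (nat_lit 18) (nat_lit 1) Bl.nil)) (Sl.cons (Sd.mk (nat_lit 2) (nat_lit 0) (nat_lit 7) (nat_lit 9) (Sb.cons (nat_lit 8) (nat_lit 0) (nat_lit 3) (Sb.cons (nat_lit 12) (nat_lit 3) (nat_lit 6) Sb.nil)) (Bl.r Y1_4_1_0 (nat_lit 0) Bl.nil)) (Sl.cons (Sd.mk (nat_lit 4) (nat_lit 4) (nat_lit 16) (nat_lit 6) (Sb.cons (nat_lit 0) (nat_lit 0) (nat_lit 1) (Sb.cons (nat_lit 8) (nat_lit 1) (nat_lit 1) (Sb.cons (nat_lit 12) (nat_lit 2) (nat_lit 4) Sb.nil))) (Bl.r Y1_4_2_3 (nat_lit 3) Bl.nil)) (Sl.cons (Sd.mk (nat_lit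 5) (nat_lit 4) (nat_lit 22) (nat_lit 10) (Sb.cons (nat_lit 0) (nat_lit 0) (nat_lit 1) (Sb.cons (nat_lit 8) (nat_lit 1) (nat_lit 3) (Sb.cons (nat_lit 12) (nat_lit 4) (nat_lit 6) Sb.nil))) (Bl.c Y1_4_2_3 (nat_lit 12) (nat_lit 2) Bl.nil)) (Sl.cons (Sd.mk (nat_lit 9) (nat_lit 8) (nat_lit 32) (nat_lit 10) (Sb.cons (nat_lit 0) (nat_lit 0) (nat_lit 1) (Sb.cons (nat_lit 4) (nat_lit 1) (nat_lit 3) (Sb.cons (nat_lit 12) (nat_lit 4) (nat_lit 6) Sb.nil))) (Bl.r Y1_4_4_5 (nat_lit 5) Bl.nil)) (Sl.cons (Sd.mk (nat_lit 10) (nat_lit 8) (nat_lit 42) (nat_lit 10) (Sb.cons (nat_lit 0) (nat_lit 0) (nat_lit 3) (Sb.cons (nat_lit 4) (nat_lit 3) (nat_lit 1) (Sb.cons (nat_lit 12) (nat_lit 4) (nat_lit 6) Sb.nil))) (Bl.c Y1_4_4_5 (nat_lit 20) (nat_lit 4) Bl.nil)) (Sl.cons (Sd.mk (nat_lit 12) (nat_lit 12) (nat_lit 52) (nat_lit 20) (Sb.cons (nat_lit 0) (nat_lit 0) (nat_lit 6) (Sb.cons (nat_lit 4) (nat_lit 6) (nat_lit 6) (Sb.cons (nat_lit 8) (nat_lit 12) (nat_lit 8) Sb.nil))) (Bl.r Y1_4_6_6 (nat_lit 6) (Bl.c Y1_4_6_6 (nat_lit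 40) (nat_lit 6) Bl.nil))) (Sl.cons (Sd.mk (nat_lit 14) (nat_lit 12) (nat_lit 72) (nat_lit 12) (Sb.cons (nat_lit 0) (nat_lit 0) (nat_lit 4) (Sb.cons (nat_lit 4) (nat_lit 4) (nat_lit 4) (Sb.cons (nat_lit 8) (nat_lit 8) (nat_lit 4) Sb.nil))) (Bl.r Y1_4_7_7 (nat_lit 7) (Bl.c Y1_4_7_7 (nat_lit 24) (nat_lit 7) Bl.nil))) Sl.nil)))))))))
noncomputable def CL1 : Cl := (Cl.cons C1_0 (Cl.cons C1_1 (Cl.cons C1_2 (Cl.cons C1_3 (Cl.cons C1_4 Cl.nil)))))
noncomputable def AL1_0 : Nat := (nat_lit 0x1edf7)
noncomputable def A41_0 : Nat := (nat_lit 0x1edf7)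
noncomputable def IX1_0 : Nat := (nat_lit 0xd000000000000c000000000000b000000000000a0000000000000000000000000900000000000080000000000000000000000000700000000000060000000000005000000000000400000000000030000000000000000000000000200000000000010000000000000)
noncomputable def OL1_0 : Nat := (nat_lit 0x20003c007000d001600280040007000c0014002000200020000)
noncomputable def AL1_1 : Nat := (nat_lit 0x8dabe5fbe845a)
noncomputable def A41_1 : Nat := (nat_lit 0x8d2a24e8e845a)
noncomputable def IX1_1 : Nat := (nat_lit 0x150000000000000000000000000000000000000000000000000014000000000001300000000000000000000000012000000000000000000000000000000000000011000000000000000000000000100000000000000000000000000f000000000000000000000000000000000000000000000000000e00000000000000000000000000000000000000d00000000000000000000000000000000000000c000000000000b000000000000a0000000000000000000000000900000000000000000000000000000000000000000000000000080000000000007000000000000600000000000000000000000005000000000000000000000000000000000000000000000000000000000000000040000000000000000000000000000000000000000000000000003000000000000000000000000020000000000001000000000000000000000000000000000000000)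
noncomputable def OL1_1 : Nat := (nat_lit 0x6600bc017002c0052009c0128021003c006c00d0019002e004c0090011001e0028003000400060004)
noncomputable def AL1_2 : Nat := (nat_lit 0xbddeed)
noncomputable def A41_2 : Nat := (nat_lit 0xbddeed)
noncomputable def IX1_2 : Nat := (nat_lit 0x1100000000000000000000000010000000000000f000000000000e000000000000d0000000000000000000000000c000000000000b000000000000a00000000000000000000000009000000000000800000000000070000000000006000000000000000000000000050000000000004000000000000300000000000000000000000002000000000000100000000000000000000000000)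
noncomputable def OL1_2 : Nat := (nat_lit 0x2e005400a001300240040007800e0018002c0050009000e0018002800300040000)
noncomputable def AL1_3 : Nat := (nat_lit 0)
noncomputable def A41_3 : Nat := (nat_lit 0)
noncomputable def IX1_3 : Nat := (nat_lit 0)
noncomputable def OL1_3 : Nat := (nat_lit 0)
noncomputable def AL1_4 : Nat := (nat_lit 0x36a59fc0017bfff759ff2bf1f05fe1e0ffff4bf7f8fdb)
noncomputable def A41_4 : Nat := (nat_lit 0x32211fc001589cd759f32ae1205fa120ef734b3278cda)
noncomputable def IX1_4 : Nat := (nat_lit 0x53000000000005200000000000000000000000000000000000005100000000000000000000000000000000000000000000000000500000000000000000000000000000000000000000000000000000000000000004f000000000000000000000000000000000000000000000000004e000000000004d000000000004c000000000004b000000000004a00000000000490000000000048000000000000000000000000000000000000000000000000000000000000000000000000000000000000000000000000000000000000000000000000000000000000000000000000000000000000000000000000000000000000470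000000000000000000000004600000000000000000000000045000000000004400000000000000000000000000000000000000000000000000430000000000000000000000000000000000000420000000000041000000000004000000000000000000000000000000000000003f000000000003e0000000000000000000000003d0000000000000000000000003c000000000003b000000000003a000000000000000000000000390000000000000000000000003800000000000370000000000000000000000000000000000000360000000000035000000000003400000000000330000000000032000000000000000000000000000000000000031000000000003000000000000000000000000000000000000002f0000000000000000000000002e0000000000000000000000002d0000000000000000000000002c000000000002b000000000002a00000000000000000000000000000000000000000000000000000000000000029000000000000000000000000000000000000028000000000000000000000000000000000000000000000000000000000000000000000000000000000000000002700000000000000000000000026000000000002500000000000240000000000023000000000002200000000000210000000000000000000000002000000000000000000000000000000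00000000000000000000000000000000001f00000000000000000000000000000000000001e00000000000000000000000000000000000000000000000000000000000000000000000000001d000000000001c000000000001b0000000000000000000000001a00000000000190000000000018000000000001700000000000000000000000016000000000001500000000000140000000000000000000000000000000000000130000000000012000000000000000000000000110000000000000000000000000000000000000100000000000000000000000000f000000000000e00000000000000000000000000000000000000d000000000000c00000000000000000000000000000000000000b00000000000000000000000000000000000000a000000000000900000000000080000000000007000000000000000000000000000000000000000000000000000600000000000050000000000000000000000000000000000000040000000000003000000000000000000000000020000000000001000000000000000000000000000000000000000)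
noncomputable def OL1_4 : Nat := (nat_lit 0x5880b0015a02a405200a0013e027804e809c01360268046008a0110021c041808000fe01f803d807a00f001d803a807400e401c0037806c00d601a8034806800ca0190030805f00ba016c02d005900a801440250048008e011802280440086010401e0039006600c8018802f005c00b4016002a005200a001280240044007c00e801c0032006000a801200220040007800b0014001c003000400060004)
noncomputable def TL1 : Tl := (Tl.cons (Tr.mk AL1_0 A41_0 IX1_0 OL1_0) (Tl.cons (Tr.mk AL1_1 A41_1 IX1_1 OL1_1) (Tl.cons (Tr.mk AL1_2 A41_2 IX1_2 OL1_2) (Tl.cons (Tr.mk AL1_3 A41_3 IX1_3 OL1_3) (Tl.cons (Tr.mk AL1_4 A41_4 IX1_4 OL1_4) Tl.nil)))))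
noncomputable def ZL1_0 : Zl := (Zl.cons (nat_lit 0) (nat_lit 0) (nat_lit 14) (Zl.cons (nat_lit 0) (nat_lit 0) (nat_lit 22) (Zl.cons (nat_lit 0) (nat_lit 0) (nat_lit 18) (Zl.cons (nat_lit 0) (nat_lit 0) (nat_lit 0) (Zl.cons (nat_lit 0) (nat_lit 0) (nat_lit 84) Zl.nil)))))
noncomputable def ZZ1 : ZZ := (ZZ.cons ZL1_0 ZZ.nil)
noncomputable def SI2_0 : Nat := (nat_lit 0x400)
noncomputable def SW2_0 : Nat := (nat_lit 0x1)
noncomputable def RV2_0 : Nat := (nat_lit 0x88001088009)
noncomputable def CO2_0 : Nat := (nat_lit 0x2888400aa04)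
noncomputable def C2_0 : Cd := (Cd.mk (nat_lit 2) (nat_lit 5) (nat_lit 1025) SI2_0 SW2_0 RV2_0 CO2_0 (Sl.cons (Sd.mk (nat_lit 2) (nat_lit 0) (nat_lit 0) (nat_lit 1) (Sb.cons (nat_lit 8) (nat_lit 0) (nat_lit 1) Sb.nil) Bl.nil) (Sl.cons (Sd.mk (nat_lit 10) (nat_lit 8) (nat_lit 1) (nat_lit 1) (Sb.cons (nat_lit 0) (nat_lit 0) (nat_lit 1) Sb.nil) Bl.nil) Sl.nil)))
noncomputable def C2_1 : Cd := (Cd.mk (nat_lit 0) (nat_lit 6) (nat_lit 546) (nat_lit 0) (nat_lit 0) (nat_lit 0) (nat_lit 0) Sl.nil)
noncomputable def SI2_2 : Nat := (nat_lit 0xc0300802008010040000000)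
noncomputable def SW2_2 : Nat := (nat_lit 0xe0020048010002006000002000a003)
noncomputable def RV2_2 : Nat := (nat_lit 0x8800808800708800e08801008800008800b08800a08800d88800308800f)
noncomputable def CO2_2 : Nat := (nat_lit 0x152c40142c4011784010b840100440092c40082c4001784001104000b84)
noncomputable def Y2_2_1_0 : Nat := (nat_lit 0x140140)
noncomputable def Y2_2_2_3 : Nat := (nat_lit 0xc00c00c0)
noncomputable def C2_2 : Cd := (Cd.mk (nat_lit 10) (nat_lit 7) (nat_lit 67) SI2_2 SW2_2 RV2_2 CO2_2 (Sl.cons (Sd.mk (nat_lit 0) (nat_lit 0) (nat_lit 0) (nat_lit 3) (Sb.cons (nat_lit 0) (nat_lit 0) (nat_lit 1) (Sb.cons (nat_lit 4) (nat_lit 1) (nat_lit 2) Sb.nil)) (Bl.c Y2_2_1_0 (nat_lit 4) (nat_lit 1) Bl.nil)) (Sl.cons (Sd.mk (nat_lit 2) (nat_lit 0) (nat_lit 3) (nat_lit 2) (Sb.cons (nat_lit 0) (nat_lit 0) (nat_lit 1) (Sb.cons (nat_lit 4) (nat_lit 1) (nat_lit 1) Sb.nil)) (Bl.r Y2_2_1_0 (nat_lit 0) Bl.nil)) (Sl.cons (Sd.mk (nat_lit 4) (nat_lit 4) (nat_lit 5) (nat_lit 3) (Sb.cons (nat_lit 0) (nat_lit 0)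 (nat_lit 2) (Sb.cons (nat_lit 4) (nat_lit 2) (nat_lit 1) Sb.nil)) (Bl.r Y2_2_2_3 (nat_lit 3) Bl.nil)) (Sl.cons (Sd.mk (nat_lit 5) (nat_lit 4) (nat_lit 8) (nat_lit 2) (Sb.cons (nat_lit 0) (nat_lit 0) (nat_lit 1) (Sb.cons (nat_lit 4) (nat_lit 1) (nat_lit 1) Sb.nil)) (Bl.c Y2_2_2_3 (nat_lit 6) (nat_lit 2) Bl.nil)) Sl.nil)))))
noncomputable def C2_3 : Cd := (Cd.mk (nat_lit 0) (nat_lit 11) (nat_lit 26) (nat_lit 0) (nat_lit 0) (nat_lit 0) (nat_lit 0) Sl.nil)
noncomputable def SI2_4 : Nat := (nat_lit 0x1c06018060180601405014040100400c020080100400)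
noncomputable def SW2_4 : Nat := (nat_lit 0x800b005002000e002008003c00200e006801400c0110000030012003)
noncomputable def RV2_4 : Nat := (nat_lit 0x88002a04006204000a0400720400288800420400420400310000020400920400808800508800608800c204001088011100001a04005)
noncomputable def CO2_4 : Nat := (nat_lit 0x390c40329020328020325420324420309c402b04202b002028880027142027102025584016644013b0401004200b34400aa00001102)
noncomputable def Y2_4_1_0 : Nat := (nat_lit 0x40000)
noncomputable def Y2_4_2_3 : Nat := (nat_lit 0x40)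
noncomputable def Y2_4_4_5 : Nat := (nat_lit 0x180)
noncomputable def Y2_4_6_6 : Nat := (nat_lit 0x40000000000)
noncomputable def C2_4 : Cd := (Cd.mk (nat_lit 18) (nat_lit 4) (nat_lit 4369) SI2_4 SW2_4 RV2_4 CO2_4 (Sl.cons (Sd.mk (nat_lit 0) (nat_lit 0) (nat_lit 0) (nat_lit 1) (Sb.cons (nat_lit 4) (nat_lit 0) (nat_lit 1) Sb.nil) (Bl.c Y2_4_1_0 (nat_lit 4) (nat_lit 1) Bl.nil)) (Sl.cons (Sd.mk (nat_lit 2) (nat_lit 0) (nat_lit 1) (nat_lit 2) (Sb.cons (nat_lit 8) (nat_lit 0) (nat_lit 1) (Sb.cons (nat_lit 12) (nat_lit 1) (nat_lit 1) Sb.nil)) (Bl.r Y2_4_1_0 (nat_lit 0) Bl.nil)) (Sl.cons (Sd.mk (nat_lit 4) (nat_lit 4) (nat_lit 3) (nat_lit 2) (Sb.cons (nat_lit 0) (nat_lit 0) (nat_lit 1) (Sb.cons (nat_lit 12) (nat_lit 1) (nat_lit 1) Sb.nil)) (Bl.r Y2_4_2_3 (nat_lit 3) Bl.nil)) (Sl.cons (Sd.mk (nat_lit 5) (nat_lit 4) (nat_lit 5) (nat_lit 1) (Sb.cons (nat_lit 8) (nat_lit 0) (nat_lit 1) Sb.nil) (Bl.c Y2_4_2_3 (nat_lit 4) (nat_lit 2) Bl.nil)) (Sl.cons (Sd.mk (nat_lit 9) (nat_lit 8) (nat_lit 6) (nat_lit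 3) (Sb.cons (nat_lit 4) (nat_lit 0) (nat_lit 1) (Sb.cons (nat_lit 12) (nat_lit 1) (nat_lit 2) Sb.nil)) (Bl.r Y2_4_4_5 (nat_lit 5) Bl.nil)) (Sl.cons (Sd.mk (nat_lit 10) (nat_lit 8) (nat_lit 9) (nat_lit 3) (Sb.cons (nat_lit 0) (nat_lit 0) (nat_lit 1) (Sb.cons (nat_lit 12) (nat_lit 1) (nat_lit 2) Sb.nil)) (Bl.c Y2_4_4_5 (nat_lit 6) (nat_lit 4) Bl.nil)) (Sl.cons (Sd.mk (nat_lit 12) (nat_lit 12) (nat_lit 12) (nat_lit 5) (Sb.cons (nat_lit 0) (nat_lit 0) (nat_lit 1) (Sb.cons (nat_lit 8) (nat_lit 1) (nat_lit 4) Sb.nil)) (Bl.r Y2_4_6_6 (nat_lit 6) (Bl.c Y2_4_6_6 (nat_lit 10) (nat_lit 6) Bl.nil))) (Sl.cons (Sd.mk (nat_lit 14) (nat_lit 12) (nat_lit 17) (nat_lit 1) (Sb.cons (nat_lit 4) (nat_lit 0) (nat_lit 1) Sb.nil) Bl.nil) Sl.nil)))))))))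
noncomputable def CL2 : Cl := (Cl.cons C2_0 (Cl.cons C2_1 (Cl.cons C2_2 (Cl.cons C2_3 (Cl.cons C2_4 Cl.nil)))))
noncomputable def AL2_0 : Nat := (nat_lit 0x3fff)
noncomputable def A42_0 : Nat := (nat_lit 0x810)
noncomputable def IX2_0 : Nat := (nat_lit 0x100000000000000000000000000000000000000000000000000000000000000000000000000000000000000000000000000000000000000000000000000000000000000000000000)
noncomputable def OL2_0 : Nat := (nat_lit 0x160010)
noncomputable def AL2_1 : Nat := (nat_lit 0)
noncomputable def A42_1 : Nat := (nat_lit 0)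
noncomputable def IX2_1 : Nat := (nat_lit 0)
noncomputable def OL2_1 : Nat := (nat_lit 0)
noncomputable def AL2_2 : Nat := (nat_lit 0x3effe)
noncomputable def A42_2 : Nat := (nat_lit 0x16cba)
noncomputable def IX2_2 : Nat := (nat_lit 0x90000000000000000000000000800000000000070000000000000000000000000600000000000050000000000000000000000000000000000000040000000000000000000000000300000000000020000000000001000000000000000000000000000000000000000)
noncomputable def OL2_2 : Nat := (nat_lit 0x200038006800b0014001c002800400060004)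
noncomputable def AL2_3 : Nat := (nat_lit 0)
noncomputable def A42_3 : Nat := (nat_lit 0)
noncomputable def IX2_3 : Nat := (nat_lit 0)
noncomputable def OL2_3 : Nat := (nat_lit 0)
noncomputable def AL2_4 : Nat := (nat_lit 0x2107aa381ceac29d13983)
noncomputable def A42_4 : Nat := (nat_lit 0x105a0200c4a801112081)
noncomputable def IX2_4 : Nat := (nat_lit 0x110000000000000000000000000000000000000000000000000000000000000000000000000000100000000000000000000000000f000000000000e0000000000000000000000000d0000000000000000000000000000000000000000000000000000000000000000000000000000000000000000000000000000000c000000000000000000000000000000000000000000000000000000000000000000000000000000000000000000000000000000000000000000000000000000000b000000000000a0000000000000000000000000000000000000000000000000009000000000000000000000000000000000000008000000000000000000000000070000000000000000000000000600000000000000000000000000000000000000000000000000000000000000000000000000000000000000000000000000000000000000000000000000000000000000000000005000000000000000000000000000000000000000000000000000400000000000000000000000000000000000000000000000000030000000000000000000000000000000000000020000000000000000000000000000000000000000000000000000000000000000000000000000010000000000000000000000000000000000000000000000000000000000000000000000000000000000000000000)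
noncomputable def OL2_4 : Nat := (nat_lit 0x9801180220043008200e4017802e0054009c012802300300050008000d000e0000)
noncomputable def TL2 : Tl := (Tl.cons (Tr.mk AL2_0 A42_0 IX2_0 OL2_0) (Tl.cons (Tr.mk AL2_1 A42_1 IX2_1 OL2_1) (Tl.cons (Tr.mk AL2_2 A42_2 IX2_2 OL2_2) (Tl.cons (Tr.mk AL2_3 A42_3 IX2_3 OL2_3) (Tl.cons (Tr.mk AL2_4 A42_4 IX2_4 OL2_4) Tl.nil)))))
noncomputable def ZL2_0 : Zl := (Zl.cons (nat_lit 0) (nat_lit 0) (nat_lit 0) (Zl.cons (nat_lit 0) (nat_lit 0) (nat_lit 0) (Zl.cons (nat_lit 5) (nat_lit 0) (nat_lit 3) (Zl.cons (nat_lit 0) (nat_lit 0) (nat_lit 0) (Zl.cons (nat_lit 3) (nat_lit 3) (nat_lit 2) Zl.nil)))))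
noncomputable def ZZ2 : ZZ := (ZZ.cons ZL2_0 ZZ.nil)
def wf0_0 : wfC (nat_lit 37) (nat_lit 2) C0_0 = true := by decide +kernel
def pl0_0 : plCk (nat_lit 37) (nat_lit 2) (nat_lit 11) (nat_lit 1) (nat_lit 0) (nat_lit 6) (nat_lit 5) (nat_lit 4) (nat_lit 0) nl0 CL0 = true := by decide +kernel
def wf0_1 : wfC (nat_lit 37) (nat_lit 2) C0_1 = true := by decide +kernel
def pl0_1 : plCk (nat_lit 37) (nat_lit 2) (nat_lit 11) (nat_lit 1) (nat_lit 0) (nat_lit 6) (nat_lit 5) (nat_lit 4) (nat_lit 1) nl0 CL0 = true := by decide +kernel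
def wf0_2 : wfC (nat_lit 37) (nat_lit 2) C0_2 = true := by decide +kernel
def pl0_2 : plCk (nat_lit 37) (nat_lit 2) (nat_lit 11) (nat_lit 1) (nat_lit 0) (nat_lit 6) (nat_lit 5) (nat_lit 4) (nat_lit 2) nl0 CL0 = true := by decide +kernel
def wf0_4 : wfC (nat_lit 37) (nat_lit 2) C0_4 = true := by decide +kernel
def pl0_4 : plCk (nat_lit 37) (nat_lit 2) (nat_lit 11) (nat_lit 1) (nat_lit 0) (nat_lit 6) (nat_lit 5) (nat_lit 4) (nat_lit 4) nl0 CL0 = true := by decide +kernel
def ti0_0 : tileCk (nat_lit 37) (nat_lit 2) (nat_lit 1) (nat_lit 1) (nat_lit 28) (nat_lit 11) (nat_lit 5) ZL0_0 CL0 = true := by decide +kernel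
def zl0_0 : zlOK (nat_lit 28) ZL0_0 = true := by decide +kernel
def tc0_0 : tiCov (nat_lit 1) (nat_lit 0) ZZ0 C0_0 = true := by decide +kernel
def tc0_1 : tiCov (nat_lit 1) (nat_lit 1) ZZ0 C0_1 = true := by decide +kernel
def tc0_2 : tiCov (nat_lit 1) (nat_lit 2) ZZ0 C0_2 = true := by decide +kernel
def tc0_4 : tiCov (nat_lit 1) (nat_lit 4) ZZ0 C0_4 = true := by decide +kernel
def wf1_0 : wfC (nat_lit 21) (nat_lit 2) C1_0 = true := by decide +kernel
def rf1_0 : rfCk (nat_lit 37) (nat_lit 2) (nat_lit 21) (nat_lit 2) (nat_lit 9) (nat_lit 0) (nat_lit 0) TL1 CL0 CL1 = true := by decide +kernel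
def st1_0_0 : starCk (nat_lit 21) (nat_lit 2) (nat_lit 1) (nat_lit 1) (nat_lit 3) (nat_lit 2) (nat_lit 1) C1_0 = true := by decide +kernel
def sc1_0 : stCov (nat_lit 0) (nat_lit 2) (Rl.cons (nat_lit 2) (nat_lit 3) Rl.nil) C1_0 = true := by decide +kernel
def wf1_1 : wfC (nat_lit 21) (nat_lit 2) C1_1 = true := by decide +kernel
def rf1_1 : rfCk (nat_lit 37) (nat_lit 2) (nat_lit 21) (nat_lit 2) (nat_lit 9) (nat_lit 0) (nat_lit 1) TL1 CL0 CL1 = true := by decide +kernel
def st1_1_0 : starCk (nat_lit 21) (nat_lit 2) (nat_lit 1) (nat_lit 1) (nat_lit 3) (nat_lit 4) (nat_lit 1) C1_1 = true := by decide +kernel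
def sc1_1 : stCov (nat_lit 0) (nat_lit 4) (Rl.cons (nat_lit 4) (nat_lit 3) Rl.nil) C1_1 = true := by decide +kernel
def wf1_2 : wfC (nat_lit 21) (nat_lit 2) C1_2 = true := by decide +kernel
def rf1_2 : rfCk (nat_lit 37) (nat_lit 2) (nat_lit 21) (nat_lit 2) (nat_lit 9) (nat_lit 0) (nat_lit 2) TL1 CL0 CL1 = true := by decide +kernel
def st1_2_0 : starCk (nat_lit 21) (nat_lit 2) (nat_lit 1) (nat_lit 1) (nat_lit 4) (nat_lit 5) (nat_lit 1) C1_2 = true := by decide +kernel
def sc1_2 : stCov (nat_lit 0) (nat_lit 5) (Rl.cons (nat_lit 5) (nat_lit 4) Rl.nil) C1_2 = true := by decide +kernel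
def wf1_4 : wfC (nat_lit 21) (nat_lit 2) C1_4 = true := by decide +kernel
def rf1_4 : rfCk (nat_lit 37) (nat_lit 2) (nat_lit 21) (nat_lit 2) (nat_lit 9) (nat_lit 0) (nat_lit 4) TL1 CL0 CL1 = true := by decide +kernel
def st1_4_0 : starCk (nat_lit 21) (nat_lit 2) (nat_lit 1) (nat_lit 1) (nat_lit 6) (nat_lit 16) (nat_lit 16) C1_4 = true := by decide +kernel
def sc1_4 : stCov (nat_lit 1) (nat_lit 16) (Rl.cons (nat_lit 16) (nat_lit 6) Rl.nil) C1_4 = true := by decide +kernel
def wf2_0 : wfC (nat_lit 6) (nat_lit 2) C2_0 = true := by decide +kernel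
def rf2_0 : rfCk (nat_lit 21) (nat_lit 2) (nat_lit 6) (nat_lit 2) (nat_lit 9) (nat_lit 0) (nat_lit 0) TL2 CL1 CL2 = true := by decide +kernel
def wf2_2 : wfC (nat_lit 6) (nat_lit 2) C2_2 = true := by decide +kernel
def rf2_2 : rfCk (nat_lit 21) (nat_lit 2) (nat_lit 6) (nat_lit 2) (nat_lit 9) (nat_lit 0) (nat_lit 2) TL2 CL1 CL2 = true := by decide +kernel
def wf2_4 : wfC (nat_lit 6) (nat_lit 2) C2_4 = true := by decide +kernel
def rf2_4 : rfCk (nat_lit 21) (nat_lit 2) (nat_lit 6) (nat_lit 2) (nat_lit 9) (nat_lit 0) (nat_lit 4) TL2 CL1 CL2 = true := by decide +kernel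
def ti2_0 : tileCk (nat_lit 6) (nat_lit 2) (nat_lit 1) (nat_lit 1) (nat_lit 5) (nat_lit 11) (nat_lit 5) ZL2_0 CL2 = true := by decide +kernel
def zl2_0 : zlOK (nat_lit 5) ZL2_0 = true := by decide +kernel
def tc2_0 : tiCov (nat_lit 1) (nat_lit 0) ZZ2 C2_0 = true := by decide +kernel
def tc2_2 : tiCov (nat_lit 1) (nat_lit 2) ZZ2 C2_2 = true := by decide +kernel
def tc2_4 : tiCov (nat_lit 1) (nat_lit 4) ZZ2 C2_4 = true := by decide +kernel
def de2_0 : deadCk (nat_lit 6) (nat_lit 2) C2_0 = true := by decide +kernel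
def de2_2 : deadCk (nat_lit 6) (nat_lit 2) C2_2 = true := by decide +kernel
def de2_4 : deadCk (nat_lit 6) (nat_lit 2) C2_4 = true := by decide +kernel
def wf0_3 : wfC (nat_lit 37) (nat_lit 2) C0_3 = true := by decide +kernel
def pl0_3 : plCk (nat_lit 37) (nat_lit 2) (nat_lit 11) (nat_lit 1) (nat_lit 0) (nat_lit 6) (nat_lit 5) (nat_lit 4) (nat_lit 3) nl0 CL0 = true := by decide +kernel
def sc0_0 : stCov (nat_lit 0) (nat_lit 0) (Rl.cons (nat_lit 0) (nat_lit 18) Rl.nil) C0_0 = true := by decide +kernel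
def sc0_1 : stCov (nat_lit 0) (nat_lit 0) (Rl.cons (nat_lit 0) (nat_lit 52) Rl.nil) C0_1 = true := by decide +kernel
def sc0_2 : stCov (nat_lit 0) (nat_lit 0) (Rl.cons (nat_lit 0) (nat_lit 24) Rl.nil) C0_2 = true := by decide +kernel
def sc0_3 : stCov (nat_lit 0) (nat_lit 0) Rl.nil C0_3 = true := by decide +kernel
def sc0_4 : stCov (nat_lit 0) (nat_lit 0) (Rl.cons (nat_lit 0) (nat_lit 178) Rl.nil) C0_4 = true := by decide +kernel
def tc0_3 : tiCov (nat_lit 1) (nat_lit 3) ZZ0 C0_3 = true := by decide +kernel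
def wf1_3 : wfC (nat_lit 21) (nat_lit 2) C1_3 = true := by decide +kernel
def rf1_3 : rfCk (nat_lit 37) (nat_lit 2) (nat_lit 21) (nat_lit 2) (nat_lit 9) (nat_lit 0) (nat_lit 3) TL1 CL0 CL1 = true := by decide +kernel
def zl1_0 : zlOK (nat_lit 84) ZL1_0 = true := by decide +kernel
def sc1_3 : stCov (nat_lit 0) (nat_lit 0) Rl.nil C1_3 = true := by decide +kernel
def tc1_0 : tiCov (nat_lit 1) (nat_lit 0) ZZ1 C1_0 = true := by decide +kernel
def tc1_1 : tiCov (nat_lit 1) (nat_lit 1) ZZ1 C1_1 = true := by decide +kernel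
def tc1_2 : tiCov (nat_lit 1) (nat_lit 2) ZZ1 C1_2 = true := by decide +kernel
def tc1_3 : tiCov (nat_lit 1) (nat_lit 3) ZZ1 C1_3 = true := by decide +kernel
def tc1_4 : tiCov (nat_lit 1) (nat_lit 4) ZZ1 C1_4 = true := by decide +kernel
def wf2_1 : wfC (nat_lit 6) (nat_lit 2) C2_1 = true := by decide +kernel
def wf2_3 : wfC (nat_lit 6) (nat_lit 2) C2_3 = true := by decide +kernel
def rf2_1 : rfCk (nat_lit 21) (nat_lit 2) (nat_lit 6) (nat_lit 2) (nat_lit 9) (nat_lit 0) (nat_lit 1) TL2 CL1 CL2 = true := by decide +kernel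
def rf2_3 : rfCk (nat_lit 21) (nat_lit 2) (nat_lit 6) (nat_lit 2) (nat_lit 9) (nat_lit 0) (nat_lit 3) TL2 CL1 CL2 = true := by decide +kernel
def sc2_0 : stCov (nat_lit 0) (nat_lit 0) (Rl.cons (nat_lit 0) (nat_lit 2) Rl.nil) C2_0 = true := by decide +kernel
def sc2_1 : stCov (nat_lit 0) (nat_lit 0) Rl.nil C2_1 = true := by decide +kernel
def sc2_2 : stCov (nat_lit 0) (nat_lit 0) (Rl.cons (nat_lit 0) (nat_lit 10) Rl.nil) C2_2 = true := by decide +kernel
def sc2_3 : stCov (nat_lit 0) (nat_lit 0) Rl.nil C2_3 = true := by decide +kernel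
def sc2_4 : stCov (nat_lit 0) (nat_lit 0) (Rl.cons (nat_lit 0) (nat_lit 18) Rl.nil) C2_4 = true := by decide +kernel
def tc2_1 : tiCov (nat_lit 1) (nat_lit 1) ZZ2 C2_1 = true := by decide +kernel
def tc2_3 : tiCov (nat_lit 1) (nat_lit 3) ZZ2 C2_3 = true := by decide +kernel
def de2_1 : deadCk (nat_lit 6) (nat_lit 2) C2_1 = true := by decide +kernel
def de2_3 : deadCk (nat_lit 6) (nat_lit 2) C2_3 = true := by decide +kernel

end Pool.Agent.NNr.R11_6_14_17
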